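import Pool.Agent.H2.NL.Basic

/-!
# Tensors and matrices
-/

set_option autoImplicit false
set_option linter.unusedSectionVars false

open Matrix Pool.Agent.H2.NL Pool.Agent.H64.CC

namespace Pool.Agent.H17.NL

variable {K : Type} [Field K] {I : Type} [Fintype I] [DecidableEq I]

private def zp (s : Matrix I I K) (u v : List I) : K := (List.zipWith (fun a b => s a b) u v).prod

private theorem zp_cons (s : Matrix I I K) (a b : I) (u v : List I) :
    zp s (a :: u) (b :: v) = s a b * zp s u v := by
  simp [zp]

private def consE (I : Type) (l : ℕ) : I × List.Vector I l ≃ List.Vector I (l + 1) where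
  toFun p := List.Vector.cons p.1 p.2
  invFun v := (v.head, v.tail)
  left_inv p := by simp
  right_inv v := by simp

private theorem sum_vec_succ (l : ℕ) (f : List I → K) :
    ∑ v : List.Vector I (l + 1), f v.1 = ∑ a : I, ∑ v : List.Vector I l, f (a :: v.1) := by
  rw [← Fintype.sum_prod_type' (fun (a : I) (v : List.Vector I l) => f (a :: v.1))]
  refine (Fintype.sum_equiv (consE I l) _ _ fun p => ?_).symm
  rfl

private theorem sum_vec_zero (f : List I → K) :
    ∑ v : List.Vector I 0, f v.1 = f [] := by
  rw [Fintype.sum_eq_single (List.Vector.nil : List.Vector I 0)]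
  · rfl
  · intro v hv
    exact absurd (List.Vector.eq_nil v) hv

private def revE (I : Type) (l : ℕ) : List.Vector I l ≃ List.Vector I l where
  toFun v := ⟨v.1.reverse, by rw [List.length_reverse]; exact v.2⟩
  invFun v := ⟨v.1.reverse, by rw [List.length_reverse]; exact v.2⟩
  left_inv v := by apply Subtype.ext; simp
  right_inv v := by apply Subtype.ext; simp

private theorem sum_vec_rev (l : ℕ) (f : List I → K) :
    ∑ v : List.Vector I l, f v.1.reverse = ∑ v : List.Vector I l, f v.1 :=
  Fintype.sum_equiv (revE I l) _ _ fun _ => rfl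

private theorem zp_mul (s η : Matrix I I K) (l : ℕ) : ∀ (u w : List I), u.length = l → w.length = l →
    ∑ v : List.Vector I l, zp s u v.1 * zp η v.1 w = zp (s * η) u w := by
  induction l with
  | zero =>
    intro u w hu hw
    rw [List.length_eq_zero_iff] at hu hw
    subst hu hw
    rw [sum_vec_zero (fun v => zp s [] v * zp η v [])]
    simp [zp]
  | succ l ih =>
    intro u w hu hw
    match u, w, hu, hw with
    | a :: u, b :: w, hu, hw =>
      rw [sum_vec_succ l (fun v => zp s (a :: u) v * zp η v (b :: w)), zp_cons, Matrix.mul_apply,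
        Finset.sum_mul]
      refine Finset.sum_congr rfl fun c _ => ?_
      have h := ih u w (by simpa using hu) (by simpa using hw)
      rw [← h, Finset.mul_sum]
      refine Finset.sum_congr rfl fun v _ => ?_
      rw [zp_cons, zp_cons]
      ring

private theorem zp_one (l : ℕ) : ∀ (u w : List I), u.length = l → w.length = l →
    zp (1 : Matrix I I K) u w = if u = w then 1 else 0 := by
  induction l with
  | zero =>
    intro u w hu hw
    rw [List.length_eq_zero_iff] at hu hw
    subst hu hw
    simp [zp]
  | succ l ih =>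
    intro u w hu hw
    match u, w, hu, hw with
    | a :: u, b :: w, hu, hw =>
      rw [zp_cons, ih u w (by simpa using hu) (by simpa using hw), Matrix.one_apply]
      by_cases h1 : a = b
      · by_cases h2 : u = w
        · simp [h1, h2]
        · simp [h1, h2]
      · simp [h1]

private theorem opw_zp (η : Matrix I I K) (l : ℕ) (t : List I → K) (u u' : List I) :
    opw η l t u u' = ∑ v : List.Vector I l, t (u ++ v.1) * zp η v.1.reverse u' := rfl

private theorem opw_congr (η : Matrix I I K) (l : ℕ) (t t' : List I → K)
    (h : ∀ w : List I, w.length = 2 * l → t w = t' w) (u u' : List I) (hu : u.length = l) :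
    opw η l t u u' = opw η l t' u u' := by
  rw [opw_zp, opw_zp]
  refine Finset.sum_congr rfl fun v _ => ?_
  rw [h _ (by rw [List.length_append, hu, v.2]; omega)]

private theorem opw_idt (η s : Matrix I I K) (l : ℕ) (u u' : List I) (hu : u.length = l)
    (hu' : u'.length = l) : opw η l (idt s l) u u' = zp (s * η) u u' := by
  rw [opw_zp]
  have h : ∀ v : List.Vector I l, idt s l (u ++ v.1) = zp s u v.1.reverse := by
    intro v
    unfold idt zp
    rw [List.take_append_of_le_length (by omega), List.take_of_length_le (by omega),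
      List.drop_append_of_le_length (by omega), List.drop_of_length_le (by omega), List.nil_append]
  rw [← zp_mul s η l u u' hu hu', ← sum_vec_rev l (fun v => zp s u v * zp η v u')]
  refine Finset.sum_congr rfl fun v _ => ?_
  rw [h v]

private theorem opw_inv (η ω : Matrix I I K) (hω : η * ω = 1) (l : ℕ) (t : List I → K)
    (u c : List I) (hc : c.length = l) :
    ∑ u' : List.Vector I l, opw η l t u u'.1 * zp ω u'.1 c.reverse = t (u ++ c) := by
  have h1 : ∀ u' : List.Vector I l, opw η l t u u'.1 * zp ω u'.1 c.reverse =
      ∑ v : List.Vector I l, t (u ++ v.1) * (zp η v.1.reverse u'.1 * zp ω u'.1 c.reverse) := by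
    intro u'
    rw [opw_zp, Finset.sum_mul]
    refine Finset.sum_congr rfl fun v _ => ?_
    ring
  rw [Finset.sum_congr rfl fun u' _ => h1 u', Finset.sum_comm]
  have h2 : ∀ v : List.Vector I l, ∑ u' : List.Vector I l,
      t (u ++ v.1) * (zp η v.1.reverse u'.1 * zp ω u'.1 c.reverse) =
      if v.1 = c then t (u ++ c) else 0 := by
    intro v
    rw [← Finset.mul_sum, zp_mul η ω l v.1.reverse c.reverse (by simp) (by simp [hc]), hω,
      zp_one l v.1.reverse c.reverse (by simp) (by simp [hc])]
    by_cases h : v.1 = c
    · rw [if_pos (by rw [h]), if_pos h, h, mul_one]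
    · rw [if_neg (fun h' => h (List.reverse_injective h')), if_neg h, mul_zero]
  rw [Finset.sum_congr rfl fun v _ => h2 v]
  have h3 : ∃ v0 : List.Vector I l, v0.1 = c := ⟨⟨c, hc⟩, rfl⟩
  obtain ⟨v0, hv0⟩ := h3
  rw [Finset.sum_eq_single v0]
  · rw [if_pos hv0]
  · intro v _ hv
    rw [if_neg (fun h => hv (Subtype.ext (h.trans hv0.symm)))]
  · intro h
    exact absurd (Finset.mem_univ v0) h

/-- OPG: tensors and matrices -/
theorem pf_OPG : T_OPG := by
  intro K _ I _ _ η ω h1 h2 l
  have key4 : ∀ s : Matrix I I K, ∀ l : ℕ, op η l (idt s l) = Jm (s * η) l := by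
    intro s l
    ext u u'
    show opw η l (idt s l) u.1 u'.1 = zp (s * η) u.1 u'.1
    exact opw_idt η s l u.1 u'.1 u.2 u'.2
  have key2 : ∀ l : ℕ, ∀ t t' : List I → K, (∀ w : List I, w.length = 2 * l → t w = t' w) →
      op η l t = op η l t' := by
    intro l t t' h
    ext u u'
    exact opw_congr η l t t' h u.1 u'.1 u.2
  refine ⟨?_, key2 l, ?_, fun s => key4 s l, ?_⟩
  · intro t t' h w hw
    have hu : (w.take l).length = l := by rw [List.length_take]; omega
    have hc : (w.drop l).length = l := by rw [List.length_drop]; omega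
    have e1 := opw_inv η ω h1 l t (w.take l) (w.drop l) hc
    have e2 := opw_inv η ω h1 l t' (w.take l) (w.drop l) hc
    rw [List.take_append_drop] at e1 e2
    rw [← e1, ← e2]
    refine Finset.sum_congr rfl fun u' _ => ?_
    have h3 := congrFun (congrFun h (⟨w.take l, hu⟩ : List.Vector I l)) u'
    have h4 : opw η l t (w.take l) u'.1 = opw η l t' (w.take l) u'.1 := h3
    rw [h4]
  · rw [key4, h2]
    ext u u'
    show zp (1 : Matrix I I K) u.1 u'.1 = (1 : Matrix (List.Vector I l) (List.Vector I l) K) u u'
    rw [zp_one l u.1 u'.1 u.2 u'.2, Matrix.one_apply]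
    by_cases h : u = u'
    · rw [if_pos h, if_pos (by rw [h])]
    · rw [if_neg h, if_neg (fun h' => h (Subtype.ext h'))]
  · intro s
    rw [← key4 s 1]
    apply key2
    intro w hw
    match w, hw with
    | [a, b], _ => simp [two, idt]

end Pool.Agent.H17.NL
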